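import Pool.Agent.Lib.MP_094185_gt.Main

/-!
Commutator (Samelson) representatives of the classes of `pi_6(S^3)` have 3-dilation bounded below by a universal constant;
more generally commutator maps of any two maps of the cube onto `S^3`.
-/

namespace Pool.Agent.Results.MP_094185_gt.Samelson

open Sam094185
open scoped Quaternion
open MeasureTheory

/-- maps onto `S^3`, no boundary condition, with the point where the 3-dilation is large -/
theorem onto : ∃ c : ℝ, 0 < c ∧ ∀ f g : E3 → ℍ[ℝ], ContDiff ℝ 1 f → ContDiff ℝ 1 g →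
    (∀ x, ‖f x‖ = 1) → (∀ y, ‖g y‖ = 1) →
    (∀ q : ℍ[ℝ], ‖q‖ = 1 → ∃ x ∈ cube, f x = q) → (∀ q : ℍ[ℝ], ‖q‖ = 1 → ∃ y ∈ cube, g y = q) →
    ∃ z : E6, z.fst ∈ cube ∧ z.snd ∈ cube ∧ c ≤ dil3 (fderiv ℝ (samelson f g) z) := by
  obtain ⟨r, d, hr, hd, hgen⟩ := genpos
  obtain ⟨δ, hδ, hv⟩ := exists_delta
    (fun s : Fin 5 ⊕ Fin 4 => volume (Quaternion.linearIsometryEquivTuple '' cone (Sum.elim P0 Q0 s) r))
    (fun s => by
      cases s with
      | inl i => exact cone_pos _ (norm_P0 i) r hr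
      | inr j => exact cone_pos _ (norm_Q0 j) r hr)
  obtain ⟨τ₁, hτ₁, ht₁⟩ := exists_tau (δ * d) (mul_pos hδ hd)
  obtain ⟨τ₂, hτ₂, ht₂⟩ := exists_tau (δ ^ 2 * d) (mul_pos (pow_pos hδ 2) hd)
  refine ⟨4 * τ₁ * τ₂, by positivity, ?_⟩
  intro f g hf1 hg1 hf2 hg2' honf hong
  have hx : ∀ i, ∃ x ∈ cube, ‖f x - P0 i‖ < r ∧ δ < |jac f x| := fun i =>
    exists_big f hf1 hf2 honf (P0 i) r δ hδ (hv (Sum.inl i))
  have hy : ∀ j, ∃ x ∈ cube, ‖g x - Q0 j‖ < r ∧ δ < |jac g x| := fun j =>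
    exists_big g hg1 hg2' hong (Q0 j) r δ hδ (hv (Sum.inr j))
  choose x hxc hxr hxJ using hx
  choose y hyc hyr hyJ using hy
  obtain ⟨hgp1, hgp2⟩ := hgen (fun i => f (x i)) (fun j => g (y j)) hxr hyr
  set A : Fin 5 → Fin 3 → ℍ[ℝ] := fun i k => star (f (x i)) * fderiv ℝ f (x i) (e k) with hA
  set B : Fin 4 → Fin 3 → ℍ[ℝ] := fun j k => star (g (y j)) * fderiv ℝ g (y j) (e k) with hB
  have hAre : ∀ i k, (A i k).re = 0 := fun i k => re_fderiv f hf1 hf2 (x i) (e k)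
  have hBre : ∀ j k, (B j k).re = 0 := fun j k => re_fderiv g hg1 hg2' (y j) (e k)
  have hAd : ∀ i, δ ≤ |det3 (A i 0) (A i 1) (A i 2)| := by
    intro i
    have := det4_eq (f (x i)) _ _ _ (hf2 _) (hAre i 0) (hAre i 1) (hAre i 2)
    rw [← this]; exact (hxJ i).le
  have hBd : ∀ j, δ ≤ |det3 (B j 0) (B j 1) (B j 2)| := by
    intro j
    have := det4_eq (g (y j)) _ _ _ (hg2' _) (hBre j 0) (hBre j 1) (hBre j 2)
    rw [← this]; exact (hyJ j).le
  obtain ⟨i, j, ⟨k, hk⟩, ⟨l, m, hlm, hm⟩⟩ := pairs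
    (fun i j => ∃ k, τ₁ ≤ |dot (A i k) (wvec (f (x i)) (g (y j)))|)
    (fun i j => ∃ l m, l ≠ m ∧ τ₂ ≤ |det3 (f (x i)) (B j l) (B j m)|)
    (by
      intro i j k l h1 h2 h3
      obtain ⟨a, b, hab⟩ := lin1 (A i) ![wvec (f (x i)) (g (y j)), wvec (f (x i)) (g (y k)), wvec (f (x i)) (g (y l))]
        δ d τ₁ hδ hd hτ₁ (hAd i) (hgp2 i j k l h1 h2 h3) ht₁
      fin_cases b
      · exact Or.inl ⟨a, hab⟩
      · exact Or.inr (Or.inl ⟨a, hab⟩)
      · exact Or.inr (Or.inr ⟨a, hab⟩))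
    (by
      intro j i k l h1 h2 h3
      obtain ⟨a, b, c, hab, habc⟩ := lin2 (B j) ![f (x i), f (x k), f (x l)] δ d τ₂ hδ hd hτ₂ (hBd j)
        (hgp1 i k l h1 h2 h3) ht₂
      fin_cases c
      · exact Or.inl ⟨a, b, hab, habc⟩
      · exact Or.inr (Or.inl ⟨a, b, hab, habc⟩)
      · exact Or.inr (Or.inr ⟨a, b, hab, habc⟩))
  refine ⟨WithLp.toLp 2 (x i, y j), hxc i, hyc j, ?_⟩
  set z : E6 := WithLp.toLp 2 (x i, y j) with hz
  set T := fderiv ℝ (samelson f g) z with hT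
  have h1 := gram_le (T : E6 →ₗ[ℝ] ℍ[ℝ]) _ (orth k l m hlm)
  have h2 : (fun s => (T : E6 →ₗ[ℝ] ℍ[ℝ])
      ((![WithLp.toLp 2 (e k, 0), WithLp.toLp 2 (0, e l), WithLp.toLp 2 (0, e m)] : Fin 3 → E6) s)) =
      ![T (WithLp.toLp 2 (e k, 0)), T (WithLp.toLp 2 (0, e l)), T (WithLp.toLp 2 (0, e m))] := by
    funext s; fin_cases s <;> rfl
  rw [h2, gram_eq (samelson f g z) _ _ _ ?_ (inner_fderiv f g hf1 hg1 hf2 hg2' z _)
    (inner_fderiv f g hf1 hg1 hf2 hg2' z _) (inner_fderiv f g hf1 hg1 hf2 hg2' z _)] at h1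
  · have e1 : T (WithLp.toLp 2 (e k, 0)) = _ := fderiv_fst f g hf1 hg1 hf2 hg2' (x i) (y j) (e k)
    have e2 : T (WithLp.toLp 2 (0, e l)) = _ := fderiv_snd f g hf1 hg1 hf2 hg2' (x i) (y j) (e l)
    have e3 : T (WithLp.toLp 2 (0, e m)) = _ := fderiv_snd f g hf1 hg1 hf2 hg2' (x i) (y j) (e m)
    have e4 := det_samelson (f (x i)) (g (y j)) (A i k) (B j l) (B j m) (hf2 _) (hg2' _) (hAre i k) (hBre j l) (hBre j m)
    have e5 : |det4 (samelson f g z) (T (WithLp.toLp 2 (e k, 0))) (T (WithLp.toLp 2 (0, e l))) (T (WithLp.toLp 2 (0, e m)))| =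
        4 * |dot (A i k) (wvec (f (x i)) (g (y j)))| * |det3 (f (x i)) (B j l) (B j m)| := by
      rw [e1, e2, e3]; exact e4
    have e6 : 0 ≤ dil3 T := by
      unfold dil3
      have := (T : E6 →ₗ[ℝ] ℍ[ℝ]).singularValues_nonneg
      exact mul_nonneg (mul_nonneg (this 0) (this 1)) (this 2)
    have e7 : |det4 (samelson f g z) (T (WithLp.toLp 2 (e k, 0))) (T (WithLp.toLp 2 (0, e l))) (T (WithLp.toLp 2 (0, e m)))| ≤ dil3 T := by
      apply abs_le_of_sq_le_sq _ e6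
      exact h1
    have e8 : 4 * τ₁ * τ₂ ≤ 4 * |dot (A i k) (wvec (f (x i)) (g (y j)))| * |det3 (f (x i)) (B j l) (B j m)| := by
      have : τ₁ * τ₂ ≤ |dot (A i k) (wvec (f (x i)) (g (y j)))| * |det3 (f (x i)) (B j l) (B j m)| :=
        mul_le_mul hk hm hτ₂.le (abs_nonneg _)
      linarith
    calc 4 * τ₁ * τ₂ ≤ _ := e8
      _ = _ := e5.symm
      _ ≤ _ := e7
  · simp only [samelson, norm_mul, norm_star, hf2, hg2', mul_one]

/-- There is a universal constant `c > 0` such that (1) for all pointed `C^1` maps `f`, `g` from the cube `(I^3, boundary)` to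
the group `S^3` of unit quaternions for which the commutator map `F (x, y) = f x * g y * (f x)⁻¹ * (g y)⁻¹` of the cube `I^6`
is not null-homotopic relative to the boundary, every upper bound `D` of the 3-dilation of `F` is at least `c`; (2) for all
`C^1` maps `f, g : R^3 -> S^3` which map the closed unit cube onto `S^3` (no boundary condition, `F` may be null-homotopic) the
3-dilation of `F` is at least `c` at some point of the cube `I^6`. -/
theorem result : ∃ c : ℝ, 0 < c ∧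
    (∀ f g : E3 → ℍ[ℝ], CubeMap f → CubeMap g → ¬ Null6 (samelson f g) →
      ∀ D : ℝ, (∀ z : E6, dil3 (fderiv ℝ (samelson f g) z) ≤ D) → c ≤ D) ∧
    ∀ f g : E3 → ℍ[ℝ], ContDiff ℝ 1 f → ContDiff ℝ 1 g → (∀ x, ‖f x‖ = 1) → (∀ y, ‖g y‖ = 1) →
      (∀ q : ℍ[ℝ], ‖q‖ = 1 → ∃ x ∈ cube, f x = q) → (∀ q : ℍ[ℝ], ‖q‖ = 1 → ∃ y ∈ cube, g y = q) →
      ∃ z : E6, z.fst ∈ cube ∧ z.snd ∈ cube ∧ c ≤ dil3 (fderiv ℝ (samelson f g) z) := by
  obtain ⟨c, hc, h⟩ := onto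
  refine ⟨c, hc, ?_, h⟩
  intro f g hf hg hnull D hD
  obtain ⟨honf, hong⟩ := onto_of_not_null f g hf hg hnull
  obtain ⟨z, -, -, hz⟩ := h f g hf.1 hg.1 hf.2.1 hg.2.1 honf hong
  exact hz.trans (hD z)

end Pool.Agent.Results.MP_094185_gt.Samelson
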